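import Mathlib

/-!
# Groups of exponent dividing 12 generated by `x, y, z`: reduction to almost simple groups

Every group `G` in the setting of the problem with more than `12` elements has a quotient in the
setting which is almost simple: the normal closure `S` of `y z` in the quotient is a non-abelian
simple group with trivial centraliser, of index `1`, `3` or `12`.

* The normal closure `N` of `y z` is perfect (`perfect`): if `N` is abelian then it has exponent
  `3` and `1 + t + t ^ 2` annihilates it for every `t` of order `3`, so that `y` acts trivially.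
* Every maximal normal subgroup `M` of `N` is normal in `G` (`normal_of_maximal`): if `t` of order
  `3` moves `M` then `N / M` has exponent `4`, but `N` is generated by elements of order `3`.
* The quotient by a normal subgroup which is maximal subject to not containing `y z` is almost
  simple.
-/

namespace Pool.Agent.Results.MP_5d202e_al.AlmostSimpleReduction

universe u


/-- ring lemma -/
lemma ring_lemma {R : Type*} [Ring R] (X Y : R) (h3 : (3 : R) = 0) (hX : X ^ 3 = 1)
    (hY : Y ^ 2 = 1) (hXY : X * Y * X * Y = Y * X ^ 2) (hYX : Y * X * Y * X = X ^ 2 * Y)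
    (h1 : 1 + X + X ^ 2 = 0)
    (h2 : 1 + (X * Y) + (X * Y) ^ 2 = 0)
    (h4 : 1 + (Y * X) + (Y * X) ^ 2 = 0)
    (h5 : 1 + (X ^ 2 * Y * X ^ 2) + (X ^ 2 * Y * X ^ 2) ^ 2 = 0) : Y = 1 := by
  have e2 : 1 + X * Y + Y * X ^ 2 = 0 := by
    rw [← hXY, ← h2]; noncomm_ring
  have e4 : 1 + Y * X + X ^ 2 * Y = 0 := by
    rw [← hYX, ← h4]; noncomm_ring
  have e5 : 1 + X ^ 2 * Y * X ^ 2 + X * Y * X = 0 := by
    have : (X ^ 2 * Y * X ^ 2) ^ 2 = X * Y * X := by
      calc (X ^ 2 * Y * X ^ 2) ^ 2 = X ^ 2 * (Y * (X ^ 3 * X) * Y * X) * X := by noncomm_ring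
        _ = X ^ 2 * (Y * X * Y * X) * X := by rw [hX, one_mul]
        _ = X ^ 3 * X * Y * X := by rw [hYX]; noncomm_ring
        _ = X * Y * X := by rw [hX, one_mul]
    rw [← this, h5]
  have f1 : X * (X * Y * X ^ 2) = X ^ 2 * Y * X ^ 2 := by noncomm_ring
  have f2 : X * (X ^ 2 * Y * X) = Y * X := by
    calc X * (X ^ 2 * Y * X) = X ^ 3 * (Y * X) := by noncomm_ring
      _ = Y * X := by rw [hX, one_mul]
  have f3 : X ^ 2 * (X * Y * X ^ 2) = Y * X ^ 2 := by
    calc X ^ 2 * (X * Y * X ^ 2) = X ^ 3 * (Y * X ^ 2) := by noncomm_ring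
      _ = Y * X ^ 2 := by rw [hX, one_mul]
  have f4 : X ^ 2 * (X ^ 2 * Y * X) = X * Y * X := by
    calc X ^ 2 * (X ^ 2 * Y * X) = X ^ 3 * (X * Y * X) := by noncomm_ring
      _ = X * Y * X := by rw [hX, one_mul]
  set Y2 := X * Y * X ^ 2 with hY2
  set Y3 := X ^ 2 * Y * X with hY3
  have hS : Y + Y2 + Y3 = 0 := by
    have g1 : (X + X ^ 2) * (1 + Y + Y2 + Y3) = -(1 + 1 + 1 + 1) := by
      have : (X + X ^ 2) * (1 + Y + Y2 + Y3) = (1 + X + X ^ 2) + (1 + X * Y + Y * X ^ 2)
          + (1 + Y * X + X ^ 2 * Y) + (1 + X ^ 2 * Y * X ^ 2 + X * Y * X) - (1 + 1 + 1 + 1) := by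
        have : (X + X ^ 2) * (1 + Y + Y2 + Y3) = X + X ^ 2 + X * Y + X ^ 2 * Y + X * Y2 + X ^ 2 * Y2
          + X * Y3 + X ^ 2 * Y3 := by noncomm_ring
        rw [this, f1, f2, f3, f4]
        noncomm_ring
      rw [this, h1, e2, e4, e5]; noncomm_ring
    have g2 : X + X ^ 2 = -1 := by
      have := h1
      rw [add_assoc] at this
      exact (neg_eq_of_add_eq_zero_right this).symm
    rw [g2] at g1
    have g3 : 1 + Y + Y2 + Y3 = 1 + 1 + 1 + 1 := by
      have : -1 * (1 + Y + Y2 + Y3) = -(1 + Y + Y2 + Y3) := by noncomm_ring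
      rw [this] at g1
      exact neg_injective g1
    have : Y + Y2 + Y3 = (1 + Y + Y2 + Y3) - 1 := by noncomm_ring
    rw [this, g3]
    have h3' : (1 : R) + 1 + 1 = 0 := by rw [← h3]; norm_num
    calc (1 : R) + 1 + 1 + 1 - 1 = 1 + 1 + 1 := by abel
      _ = 0 := h3'
  have k1 : Y * Y2 = Y3 := by
    calc Y * Y2 = (Y * X * Y * X) * X := by rw [hY2]; noncomm_ring
      _ = Y3 := by rw [hYX]
  have k2 : Y * Y3 = Y2 := by
    calc Y * Y3 = (Y * X ^ 2) * Y * X := by rw [hY3]; noncomm_ring
      _ = (X * Y * X * Y) * Y * X := by rw [hXY]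
      _ = X * Y * X * Y ^ 2 * X := by noncomm_ring
      _ = Y2 := by rw [hY, hY2]; noncomm_ring
  have : Y * (Y + Y2 + Y3) = 1 + (Y2 + Y3) := by
    rw [mul_add, mul_add, k1, k2, ← pow_two, hY]; abel
  rw [hS, mul_zero] at this
  have h6 : Y2 + Y3 = -1 := (neg_eq_of_add_eq_zero_right this.symm).symm
  rw [add_assoc, h6] at hS
  have : Y = (Y + -1) + 1 := by abel
  rw [this, hS, zero_add]

/-- The setting of the problem. -/
structure Setting (G : Type u) [Group G] (x y z : G) : Prop where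
  gen : Subgroup.closure ({x, y, z} : Set G) = ⊤
  hx : x ^ 3 = 1
  hy : y ^ 2 = 1
  hz : z ^ 2 = 1
  hxy : (x * y) ^ 3 = 1
  hyz : (y * z) ^ 3 = 1
  exp : ∀ g : G, g ^ 12 = 1

/-- The action of an element by conjugation on a commutative normal subgroup, as an
endomorphism of the additive group. -/
def E {G : Type u} [Group G] (N : Subgroup G) [N.Normal] (g : G) : AddMonoid.End (Additive N) :=
  MonoidHom.toAdditive (MulAut.conjNormal g : MulAut N).toMonoidHom

lemma E_mul {G : Type u} [Group G] (N : Subgroup G) [N.Normal] (g h : G) :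
    E N (g * h) = E N g * E N h := by
  ext v
  simp [E]
  rfl

lemma pow_three_of_mem {G : Type u} [Group G] {x y z : G} (h : Setting G x y z)
    (hc : ∀ a ∈ Subgroup.normalClosure {y * z}, ∀ b ∈ Subgroup.normalClosure {y * z},
      a * b = b * a) : ∀ v ∈ Subgroup.normalClosure {y * z}, v ^ 3 = 1 := by
  intro v hv
  have hv' := hv
  unfold Subgroup.normalClosure at hv'
  induction hv' using Subgroup.closure_induction with
  | mem w hw =>
    rw [Group.mem_conjugatesOfSet_iff] at hw
    obtain ⟨a, ha, hw⟩ := hw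
    rw [Set.mem_singleton_iff] at ha
    subst ha
    obtain ⟨c, hc⟩ := isConj_iff.1 hw
    rw [← hc, conj_pow, h.hyz]; simp
  | one => simp
  | mul a b ha hb iha ihb =>
    have h1 := iha ha
    have h2 := ihb hb
    have hcomm : Commute a b := hc a ha b hb
    rw [hcomm.mul_pow, h1, h2, one_mul]
  | inv a ha iha =>
    rw [inv_pow, iha ha, inv_one]

lemma triple {G : Type u} [Group G] {x y z : G} (h : Setting G x y z)
    (hc : ∀ a ∈ Subgroup.normalClosure {y * z}, ∀ b ∈ Subgroup.normalClosure {y * z},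
      a * b = b * a) (t : G) (ht : t ^ 3 = 1) (v : G) (hv : v ∈ Subgroup.normalClosure {y * z}) :
    (t * v * t⁻¹) * (t ^ 2 * v * (t ^ 2)⁻¹) * v = 1 := by
  have hw : (t * v * t⁻¹) * (t ^ 2 * v * (t ^ 2)⁻¹) * v ∈ Subgroup.normalClosure {y * z} :=
    mul_mem (mul_mem (Subgroup.normalClosure_normal.conj_mem _ hv _)
      (Subgroup.normalClosure_normal.conj_mem _ hv _)) hv
  have h3 := pow_three_of_mem h hc _ hw
  have h1 : (t * v) ^ 3 = (t * v * t⁻¹) * (t ^ 2 * v * (t ^ 2)⁻¹) * v := by
    have : (t * v) ^ 3 = (t * v * t⁻¹) * (t ^ 2 * v * (t ^ 2)⁻¹) * (t ^ 3 * v) := by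
      simp only [pow_succ, pow_zero, one_mul]; group
    rw [this, ht, one_mul]
  have h4 : ((t * v * t⁻¹) * (t ^ 2 * v * (t ^ 2)⁻¹) * v) ^ 4 = 1 := by
    rw [← h1, ← pow_mul]; exact h.exp _
  generalize (t * v * t⁻¹) * (t ^ 2 * v * (t ^ 2)⁻¹) * v = w at *
  calc w = w ^ 4 * (w ^ 3)⁻¹ := by group
    _ = 1 := by rw [h4, h3]; simp

lemma E_triple {G : Type u} [Group G] (N : Subgroup G) [N.Normal] (hc : ∀ a ∈ N, ∀ b ∈ N,
      a * b = b * a) (t : G) (ht : ∀ v ∈ N, (t * v * t⁻¹) * (t ^ 2 * v * (t ^ 2)⁻¹) * v = 1) :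
    letI : CommGroup N := { (inferInstance : Group N) with
      mul_comm := fun a b => Subtype.ext (hc a a.2 b b.2) }
    1 + E N t + (E N t) ^ 2 = 0 := by
  letI : CommGroup N := { (inferInstance : Group N) with
      mul_comm := fun a b => Subtype.ext (hc a a.2 b b.2) }
  have h2 : (E N t) ^ 2 = E N (t ^ 2) := by rw [pow_two, pow_two, E_mul]
  show 1 + E N t + (E N t) ^ 2 = 0
  rw [h2]
  apply AddMonoidHom.ext
  intro v
  obtain ⟨v, hv⟩ := v
  have := ht v hv
  apply Subtype.ext
  show v * (t * v * t⁻¹) * (t ^ 2 * v * (t ^ 2)⁻¹) = 1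
  rw [mul_assoc]
  have hn : N.Normal := inferInstance
  rw [hc v hv _ (mul_mem (hn.conj_mem _ hv _) (hn.conj_mem _ hv _))]
  exact this

lemma comm_case {G : Type u} [Group G] {x y z : G} (h : Setting G x y z)
    (hc : ∀ a ∈ Subgroup.normalClosure {y * z}, ∀ b ∈ Subgroup.normalClosure {y * z},
      a * b = b * a) : y * z = 1 := by
  set N := Subgroup.normalClosure {y * z} with hN
  letI : CommGroup N := { (inferInstance : Group N) with
      mul_comm := fun a b => Subtype.ext (hc a a.2 b b.2) }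
  have key : ∀ t : G, t ^ 3 = 1 → 1 + E N t + (E N t) ^ 2 = 0 := fun t ht =>
    E_triple N hc t (fun v hv => triple h hc t ht v hv)
  have E1 : E N (1 : G) = 1 := by
    apply AddMonoidHom.ext
    intro v
    apply Subtype.ext
    show 1 * ((Additive.toMul v : N) : G) * 1⁻¹ = ((Additive.toMul v : N) : G)
    simp
  have h3 : (3 : AddMonoid.End (Additive N)) = 0 := by
    have : (3 : AddMonoid.End (Additive N)) = 1 + 1 + 1 := by norm_num
    rw [this]
    apply AddMonoidHom.ext
    intro v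
    obtain ⟨v, hv⟩ := v
    apply Subtype.ext
    show v * v * v = 1
    rw [← pow_three_of_mem h hc v hv]; simp only [pow_succ, pow_zero, one_mul]
  have hx : (E N x) ^ 3 = 1 := by
    have : (E N x) ^ 3 = E N (x ^ 3) := by
      rw [pow_succ, pow_two, pow_succ, pow_two, E_mul, E_mul]
    rw [this, h.hx, E1]
  have hy : (E N y) ^ 2 = 1 := by
    have : (E N y) ^ 2 = E N (y ^ 2) := by rw [pow_two, pow_two, E_mul]
    rw [this, h.hy, E1]
  have x3 : x⁻¹ = x ^ 2 := by
    rw [inv_eq_iff_mul_eq_one, ← pow_succ', h.hx]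
  have y2 : y⁻¹ = y := by
    rw [inv_eq_iff_mul_eq_one, ← pow_two, h.hy]
  have r1 : x * y * x * y = y * x ^ 2 := by
    have h1 := h.hxy
    have : x * y * x * y = (x * y) ^ 3 * (y⁻¹ * x⁻¹) := by
      simp only [pow_succ, pow_zero, one_mul]; group
    rw [this, h1, one_mul, y2, x3]
  have r3 : (y * x) ^ 3 = 1 := by
    have : (y * x) ^ 3 = x⁻¹ * (x * y) ^ 3 * x := by
      simp only [pow_succ, pow_zero, one_mul]; group
    rw [this, h.hxy]; group
  have r2 : y * x * y * x = x ^ 2 * y := by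
    have : y * x * y * x = (y * x) ^ 3 * (x⁻¹ * y⁻¹) := by
      simp only [pow_succ, pow_zero, one_mul]; group
    rw [this, r3, one_mul, y2, x3]
  have r4 : (x ^ 2 * y * x ^ 2) ^ 3 = 1 := by
    rw [← x3]
    have : (x⁻¹ * y * x⁻¹) ^ 3 = x⁻¹ * (y * x⁻¹ * x⁻¹) ^ 3 * x := by
      simp only [pow_succ, pow_zero, one_mul]; group
    rw [this]
    have : y * x⁻¹ * x⁻¹ = y * x := by
      have : x⁻¹ * x⁻¹ = x := by
        rw [x3, ← pow_add]
        have : x ^ (2 + 2) = x ^ 3 * x := by group
        rw [this, h.hx, one_mul]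
      rw [mul_assoc, this]
    rw [this, r3]; group
  have hE : ∀ a b : G, E N a * E N b = E N (a * b) := fun a b => (E_mul N a b).symm
  have hE2 : ∀ a : G, E N a ^ 2 = E N (a ^ 2) := fun a => by rw [pow_two, pow_two, E_mul]
  have hYone : E N y = 1 := by
    apply ring_lemma (E N x) (E N y) h3 hx hy
    · rw [hE2, hE, hE, hE, hE, r1]
    · rw [hE2, hE, hE, hE, hE, r2]
    · exact key x h.hx
    · rw [hE]; exact key _ h.hxy
    · rw [hE]; exact key _ r3
    · rw [hE2 x, hE, hE]; exact key _ r4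
  have hcom : y * (y * z) * y⁻¹ = y * z := by
    have hm : y * z ∈ N := Subgroup.subset_normalClosure (Set.mem_singleton _)
    have := congrArg (fun f : AddMonoid.End (Additive N) => f (Additive.ofMul ⟨y * z, hm⟩)) hYone
    have := congrArg Subtype.val this
    exact this
  have z2 : z⁻¹ = z := by
    rw [inv_eq_iff_mul_eq_one, ← pow_two, h.hz]
  have h5 : y * (y * z) * y⁻¹ = (y * z)⁻¹ := by
    rw [mul_inv_rev, y2, z2]
    have : y * (y * z) * y = y ^ 2 * (z * y) := by
      simp only [pow_two, mul_assoc]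
    rw [this, h.hy, one_mul]
  rw [h5] at hcom
  have h6 : (y * z) ^ 2 = 1 := by
    rw [pow_two]
    nth_rw 1 [← hcom]
    simp
  calc y * z = (y * z) ^ 3 * ((y * z) ^ 2)⁻¹ := by
        simp only [pow_succ, pow_zero, one_mul]; group
    _ = 1 := by rw [h.hyz, h6]; simp

lemma Setting.map {G : Type u} [Group G] {G' : Type u} [Group G'] {x y z : G}
    (h : Setting G x y z) (f : G →* G') (hf : Function.Surjective f) :
    Setting G' (f x) (f y) (f z) where
  gen := by
    have h1 : (({f x, f y, f z} : Set G')) = f '' {x, y, z} := by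
      rw [Set.image_insert_eq, Set.image_insert_eq, Set.image_singleton]
    rw [h1, ← MonoidHom.map_closure, h.gen, Subgroup.map_top_of_surjective f hf]
  hx := by rw [← map_pow, h.hx, map_one]
  hy := by rw [← map_pow, h.hy, map_one]
  hz := by rw [← map_pow, h.hz, map_one]
  hxy := by rw [← map_mul, ← map_pow, h.hxy, map_one]
  hyz := by rw [← map_mul, ← map_pow, h.hyz, map_one]
  exp := by
    intro g
    obtain ⟨g, rfl⟩ := hf g
    rw [← map_pow, h.exp, map_one]

lemma map_ncl {G : Type u} [Group G] {G' : Type u} [Group G'] (y z : G)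
    (f : G →* G') (hf : Function.Surjective f) :
    Subgroup.normalClosure {f y * f z} = (Subgroup.normalClosure {y * z}).map f := by
  rw [Subgroup.map_normalClosure _ _ hf, Set.image_singleton, map_mul]

open scoped commutatorElement in
/-- The normal closure of `y z` is perfect. -/
lemma perfect {G : Type u} [Group G] {x y z : G} (h : Setting G x y z) :
    ⁅Subgroup.normalClosure {y * z}, Subgroup.normalClosure {y * z}⁆ =
      Subgroup.normalClosure {y * z} := by
  set N := Subgroup.normalClosure {y * z} with hN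
  have hle : ⁅N, N⁆ ≤ N := Subgroup.commutator_le_left N N
  apply le_antisymm hle
  have hq := h.map (QuotientGroup.mk' ⁅N, N⁆) (QuotientGroup.mk'_surjective _)
  have hmem : (QuotientGroup.mk' ⁅N, N⁆ y) * (QuotientGroup.mk' ⁅N, N⁆ z) = 1 := by
    apply comm_case hq
    rw [map_ncl y z _ (QuotientGroup.mk'_surjective _)]
    rintro _ ⟨a, ha, rfl⟩ _ ⟨b, hb, rfl⟩
    rw [← map_mul, ← map_mul]
    apply (QuotientGroup.mk'_eq_mk' _).2
    refine ⟨(a * b)⁻¹ * (b * a), ?_, by group⟩
    have : (a * b)⁻¹ * (b * a) = ⁅b⁻¹, a⁻¹⁆ := by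
      rw [commutatorElement_def]; group
    rw [this]
    exact Subgroup.commutator_mem_commutator (inv_mem hb) (inv_mem ha)
  rw [← map_mul, QuotientGroup.mk'_apply, QuotientGroup.eq_one_iff] at hmem
  rw [hN]
  apply Subgroup.normalClosure_le_normal
  rw [Set.singleton_subset_iff]
  exact hmem

section Card

variable {Q : Type u} [Group Q] {x y : Q}

/-- The Klein four group (or the trivial group) in a quotient of `A₄`. -/
def four (hx : x ^ 3 = 1) (hy : y ^ 2 = 1) (hxy : (x * y) ^ 3 = 1) : Subgroup Q where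
  carrier := {1, y, x * y * x⁻¹, x⁻¹ * y * x}
  one_mem' := by simp
  mul_mem' := by
    have x3 : x⁻¹ = x * x := by
      rw [inv_eq_iff_mul_eq_one, ← pow_two, ← pow_succ', hx]
    have y2 : y * y = 1 := by rw [← pow_two, hy]
    have r3 : x * y * x * y * x * y = 1 := by
      rw [← hxy]; simp only [pow_succ, pow_zero, one_mul, mul_assoc]
    have yi : y⁻¹ = y := by rw [inv_eq_iff_mul_eq_one, y2]
    -- y * b = c
    have k1 : y * (x * y * x⁻¹) = x⁻¹ * y * x := by
      have : y * (x * y * x⁻¹) = x⁻¹ * (x * y * x * y * x * y) * (y⁻¹ * x⁻¹ * x⁻¹) := by group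
      rw [this, r3, yi]
      have : x⁻¹ * x⁻¹ = x := by
        rw [x3]
        have : x * x * (x * x) = x ^ 3 * x := by
          simp only [pow_succ, pow_zero, one_mul, mul_assoc]
        rw [this, hx, one_mul]
      rw [mul_assoc y, this]; group
    have b2 : (x * y * x⁻¹) * (x * y * x⁻¹) = 1 := by
      have : (x * y * x⁻¹) * (x * y * x⁻¹) = x * (y * y) * x⁻¹ := by group
      rw [this, y2]; group
    have c2 : (x⁻¹ * y * x) * (x⁻¹ * y * x) = 1 := by
      have : (x⁻¹ * y * x) * (x⁻¹ * y * x) = x⁻¹ * (y * y) * x := by group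
      rw [this, y2]; group
    generalize x * y * x⁻¹ = b at *
    generalize x⁻¹ * y * x = c at *
    have bi : b⁻¹ = b := by rw [inv_eq_iff_mul_eq_one, b2]
    have ci : c⁻¹ = c := by rw [inv_eq_iff_mul_eq_one, c2]
    have k2 : b * y = c := by
      have := congrArg (·⁻¹) k1
      simpa [mul_inv_rev, bi, yi, ci] using this
    have k3 : y * c = b := by rw [← k1, ← mul_assoc, y2, one_mul]
    have k4 : c * y = b := by rw [← k2, mul_assoc, y2, mul_one]
    have k5 : b * c = y := by rw [← k2, ← mul_assoc, b2, one_mul]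
    have k6 : c * b = y := by rw [← k1, mul_assoc, b2, mul_one]
    intro p q hp hq
    simp only [Set.mem_insert_iff, Set.mem_singleton_iff] at hp hq ⊢
    rcases hp with rfl | rfl | rfl | rfl <;> rcases hq with rfl | rfl | rfl | rfl <;>
      simp [y2, b2, c2, k1, k2, k3, k4, k5, k6]
  inv_mem' := by
    have y2 : y * y = 1 := by rw [← pow_two, hy]
    have yi : y⁻¹ = y := by rw [inv_eq_iff_mul_eq_one, y2]
    intro p hp
    simp only [Set.mem_insert_iff, Set.mem_singleton_iff] at hp ⊢
    rcases hp with rfl | rfl | rfl | rfl <;> simp [mul_inv_rev, yi, mul_assoc]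

lemma mem_four (hx : x ^ 3 = 1) (hy : y ^ 2 = 1) (hxy : (x * y) ^ 3 = 1) (p : Q) :
    p ∈ four hx hy hxy ↔ p = 1 ∨ p = y ∨ p = x * y * x⁻¹ ∨ p = x⁻¹ * y * x := by
  show p ∈ ({1, y, x * y * x⁻¹, x⁻¹ * y * x} : Set Q) ↔ _
  simp

lemma four_normal (hx : x ^ 3 = 1) (hy : y ^ 2 = 1) (hxy : (x * y) ^ 3 = 1)
    (hg : Subgroup.closure ({x, y} : Set Q) = ⊤) : (four hx hy hxy).Normal := by
  have xx : x⁻¹ * x⁻¹ = x := by
    have : x⁻¹ * x⁻¹ = x * (x ^ 3)⁻¹ := by group
    rw [this, hx]; simp
  have xx' : x * x = x⁻¹ := by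
    have : x * x = x⁻¹ * x ^ 3 := by
      simp only [pow_succ, pow_zero, one_mul]; group
    rw [this, hx]; simp
  rw [← Subgroup.normalizer_eq_top_iff, eq_top_iff, ← hg, Subgroup.closure_le]
  have hyV : y ∈ four hx hy hxy := by rw [mem_four]; simp
  intro w hw
  rcases hw with rfl | hw
  · rw [SetLike.mem_coe, Subgroup.mem_normalizer_iff]
    have key : ∀ p, p ∈ four hx hy hxy → w * p * w⁻¹ ∈ four hx hy hxy := by
      intro p hp
      rw [mem_four] at hp ⊢
      rcases hp with rfl | rfl | rfl | rfl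
      · simp
      · simp
      · right; right; right
        have : w * (w * y * w⁻¹) * w⁻¹ = (w * w) * y * (w⁻¹ * w⁻¹) := by group
        rw [this, xx, xx']
      · right; left; group
    intro p
    refine ⟨key p, fun hp => ?_⟩
    have h1 := key _ (key _ hp)
    have : w * (w * (w * p * w⁻¹) * w⁻¹) * w⁻¹ = w ^ 3 * p * (w ^ 3)⁻¹ := by
      simp only [pow_succ, pow_zero, one_mul]; group
    rw [this, hx] at h1
    simpa using h1
  · rw [Set.mem_singleton_iff] at hw
    subst hw
    exact Subgroup.le_normalizer hyV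

lemma card_four (hx : x ^ 3 = 1) (hy : y ^ 2 = 1) (hxy : (x * y) ^ 3 = 1) (h1 : y ≠ 1) :
    Nat.card (four hx hy hxy) = 4 := by
  have hb : x * y * x⁻¹ ≠ 1 := by
    intro h
    apply h1
    have : y = x⁻¹ * (x * y * x⁻¹) * x := by group
    rw [this, h]; group
  have hc : x⁻¹ * y * x ≠ 1 := by
    intro h
    apply h1
    have : y = x * (x⁻¹ * y * x) * x⁻¹ := by group
    rw [this, h]; group
  have y2 : y * y = 1 := by rw [← pow_two, hy]
  have key : y * (x * y * x⁻¹) = x⁻¹ * y * x := by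
    have r3 : x * y * x * y * x * y = 1 := by
      rw [← hxy]; simp only [pow_succ, pow_zero, one_mul, mul_assoc]
    have yi : y⁻¹ = y := by rw [inv_eq_iff_mul_eq_one, y2]
    have : y * (x * y * x⁻¹) = x⁻¹ * (x * y * x * y * x * y) * (y⁻¹ * x⁻¹ * x⁻¹) := by group
    rw [this, r3, yi]
    have xx : x⁻¹ * x⁻¹ = x := by
      have : x⁻¹ * x⁻¹ = x * (x ^ 3)⁻¹ := by group
      rw [this, hx]; simp
    rw [mul_assoc y, xx]; group
  have hyb : y ≠ x * y * x⁻¹ := by
    intro h
    rw [← h, y2] at key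
    exact hc key.symm
  have hyc : y ≠ x⁻¹ * y * x := by
    intro h
    rw [← h] at key
    apply hb
    exact mul_left_cancel (key.trans (mul_one y).symm)
  have hbc : x * y * x⁻¹ ≠ x⁻¹ * y * x := by
    intro h
    rw [← h] at key
    exact h1 (mul_eq_right.1 key)
  have : Nat.card (four hx hy hxy) = Set.ncard ({1, y, x * y * x⁻¹, x⁻¹ * y * x} : Set Q) := rfl
  rw [this, Set.ncard_insert_of_notMem, Set.ncard_insert_of_notMem, Set.ncard_pair hbc]
  · simp [hyb, hyc]
  · simp [h1.symm, hb.symm, hc.symm]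

/-- A group generated by `x, y` with `x³ = y² = (xy)³ = 1` has order `1`, `3` or `12`. -/
lemma card_cases (hx : x ^ 3 = 1) (hy : y ^ 2 = 1) (hxy : (x * y) ^ 3 = 1)
    (hg : Subgroup.closure ({x, y} : Set Q) = ⊤) :
    Nat.card Q = 1 ∨ Nat.card Q = 3 ∨ Nat.card Q = 12 := by
  by_cases h1 : y = 1
  · have hz : Subgroup.zpowers x = ⊤ := by
      rw [eq_top_iff, ← hg, Subgroup.closure_le]
      rintro w (rfl | hw)
      · exact Subgroup.mem_zpowers w
      · rw [Set.mem_singleton_iff] at hw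
        rw [hw, h1]; exact one_mem _
    have : Nat.card Q = orderOf x := by
      rw [← Nat.card_zpowers, hz]; simp
    rw [this]
    have h3 : orderOf x ∣ 3 := orderOf_dvd_of_pow_eq_one hx
    rcases (Nat.dvd_prime Nat.prime_three).1 h3 with h | h <;> simp [h]
  · set V := four hx hy hxy with hV
    haveI : V.Normal := four_normal hx hy hxy hg
    have hxV : x ∉ V := by
      intro h
      have h2 : x ^ 2 = 1 := by
        rw [hV, mem_four] at h
        rcases h with h | h | h | h
        · rw [h]; simp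
        · rw [h, hy]
        · have h' : (x * y * x⁻¹) ^ 2 = 1 := by rw [conj_pow, hy]; simp
          rw [← h] at h'; exact h'
        · have h' : (x⁻¹ * y * x) ^ 2 = 1 := by
            have : x⁻¹ * y * x = x⁻¹ * y * (x⁻¹)⁻¹ := by group
            rw [this, conj_pow, hy]; simp
          rw [← h] at h'; exact h'
      have h3 : x = 1 := by
        have : x = x ^ 3 * (x ^ 2)⁻¹ := by group
        rw [this, hx, h2]; simp
      apply h1
      rw [h3, one_mul] at hxy
      have : y = y ^ 3 * (y ^ 2)⁻¹ := by group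
      rw [this, hxy, hy]; simp
    have hz : Subgroup.zpowers (QuotientGroup.mk' V x) = ⊤ := by
      have h2 : Subgroup.closure ({QuotientGroup.mk' V x, QuotientGroup.mk' V y} : Set (Q ⧸ V))
          = ⊤ := by
        have : ({QuotientGroup.mk' V x, QuotientGroup.mk' V y} : Set (Q ⧸ V)) =
            QuotientGroup.mk' V '' {x, y} := by
          rw [Set.image_insert_eq, Set.image_singleton]
        rw [this, ← MonoidHom.map_closure, hg,
          Subgroup.map_top_of_surjective _ (QuotientGroup.mk'_surjective V)]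
      rw [eq_top_iff, ← h2, Subgroup.closure_le]
      rintro w (rfl | hw)
      · exact Subgroup.mem_zpowers _
      · rw [Set.mem_singleton_iff] at hw
        have : QuotientGroup.mk' V y = 1 := by
          rw [QuotientGroup.mk'_apply, QuotientGroup.eq_one_iff, hV, mem_four]; simp
        rw [hw, this]; exact one_mem _
    have hi : V.index = orderOf (QuotientGroup.mk' V x) := by
      rw [Subgroup.index, ← Nat.card_zpowers, hz]; simp
    have h3 : orderOf (QuotientGroup.mk' V x) ∣ 3 := by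
      apply orderOf_dvd_of_pow_eq_one
      rw [← map_pow, hx, map_one]
    have h4 : orderOf (QuotientGroup.mk' V x) ≠ 1 := by
      intro h
      rw [orderOf_eq_one_iff, QuotientGroup.mk'_apply, QuotientGroup.eq_one_iff] at h
      exact hxV h
    have h5 : orderOf (QuotientGroup.mk' V x) = 3 :=
      ((Nat.dvd_prime Nat.prime_three).1 h3).resolve_left h4
    have h6 := V.card_mul_index
    rw [hi, h5, hV, card_four hx hy hxy h1] at h6
    right; right; exact h6.symm

end Card

/-- If `G` is in the setting and `y z = 1` then `G` has order `1`, `3` or `12`. -/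
lemma card_of_eq {G : Type u} [Group G] {x y z : G} (h : Setting G x y z) (h1 : y * z = 1) :
    Nat.card G = 1 ∨ Nat.card G = 3 ∨ Nat.card G = 12 := by
  apply card_cases h.hx h.hy h.hxy
  rw [eq_top_iff, ← h.gen, Subgroup.closure_le]
  have hz : z = y⁻¹ := (inv_eq_of_mul_eq_one_right h1).symm
  rintro w (rfl | rfl | hw)
  · exact Subgroup.subset_closure (by simp)
  · exact Subgroup.subset_closure (by simp)
  · rw [Set.mem_singleton_iff] at hw
    rw [hw, hz]
    exact inv_mem (Subgroup.subset_closure (by simp))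

lemma index_cases {G : Type u} [Group G] {x y z : G} (h : Setting G x y z) :
    (Subgroup.normalClosure {y * z}).index = 1 ∨ (Subgroup.normalClosure {y * z}).index = 3 ∨
      (Subgroup.normalClosure {y * z}).index = 12 := by
  set N := Subgroup.normalClosure {y * z} with hN
  apply card_of_eq (h.map (QuotientGroup.mk' N) (QuotientGroup.mk'_surjective _))
  rw [← map_mul, QuotientGroup.mk'_apply, QuotientGroup.eq_one_iff]
  exact Subgroup.subset_normalClosure (Set.mem_singleton _)

/-- Every proper normal subgroup of a finitely generated group is contained in a maximal one. -/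
lemma exists_maximal {A : Type u} [Group A] [hA : Group.FG A] (L : Subgroup A) (hL : L.Normal)
    (hL' : L ≠ ⊤) : ∃ M : Subgroup A, L ≤ M ∧ M.Normal ∧ M ≠ ⊤ ∧
      ∀ P : Subgroup A, P.Normal → M ≤ P → P ≠ ⊤ → P ≤ M := by
  obtain ⟨F, hF⟩ := hA.out
  obtain ⟨M, hLM, hM⟩ := zorn_le_nonempty₀ {L : Subgroup A | L.Normal ∧ L ≠ ⊤} (by
    intro c hc hch P hP
    have hdir : DirectedOn (· ≤ ·) c := hch.directedOn
    refine ⟨sSup c, ⟨⟨?_⟩, ?_⟩, fun z hz => le_sSup hz⟩
    · intro n hn g
      rw [Subgroup.mem_sSup_of_directedOn ⟨P, hP⟩ hdir] at hn ⊢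
      obtain ⟨K, hK, hn⟩ := hn
      exact ⟨K, hK, (hc hK).1.conj_mem _ hn _⟩
    · intro htop
      have hsub : (F : Set A) ⊆ ⋃ i ∈ c, (i : Set A) := by
        intro f _
        have : f ∈ sSup c := by rw [htop]; trivial
        rw [Subgroup.mem_sSup_of_directedOn ⟨P, hP⟩ hdir] at this
        obtain ⟨K, hK, hf⟩ := this
        exact Set.mem_biUnion hK hf
      obtain ⟨K, hK, hFK⟩ := DirectedOn.exists_mem_subset_of_finset_subset_biUnion
        (f := fun i : Subgroup A => (i : Set A)) ⟨P, hP⟩ (by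
          intro a ha b hb
          obtain ⟨d, hd, h1, h2⟩ := hdir a ha b hb
          exact ⟨d, hd, h1, h2⟩) hsub
      apply (hc hK).2
      rw [eq_top_iff, ← hF, Subgroup.closure_le]
      exact hFK) L ⟨hL, hL'⟩
  refine ⟨M, hLM, hM.1.1, hM.1.2, fun P hP hMP hP' => hM.2 ⟨hP, hP'⟩ hMP⟩

open scoped commutatorElement in
lemma fixes {A : Type u} [Group A] (φ : MulAut A) (h3 : ∀ a, φ (φ (φ a)) = a)
    (hw : ∀ n, (φ n * φ (φ n) * n) ^ 4 = 1)
    (hp : ⁅(⊤ : Subgroup A), (⊤ : Subgroup A)⁆ = ⊤)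
    (hgen : Subgroup.closure {s : A | s ^ 3 = 1} = ⊤) (M : Subgroup A) [hMn : M.Normal]
    (hM : M ≠ ⊤) (hmax : ∀ P : Subgroup A, P.Normal → M ≤ P → P ≠ ⊤ → P ≤ M) :
    ∀ a ∈ M, φ a ∈ M := by
  by_contra hcon
  set M2 : Subgroup A := M.comap φ.toMonoidHom with hM2
  set M1 : Subgroup A := M2.comap φ.toMonoidHom with hM1
  have m2 : ∀ a, a ∈ M2 ↔ φ a ∈ M := fun a => Iff.rfl
  have m1 : ∀ a, a ∈ M1 ↔ φ (φ a) ∈ M := fun a => Iff.rfl
  have hn2 : M2.Normal := hMn.comap _
  have hn1 : M1.Normal := hn2.comap _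
  have n2 : ¬ (M2 ≤ M) := by
    intro hle
    apply hcon
    intro a ha
    have s1 : φ (φ a) ∈ M2 := by rw [m2, h3]; exact ha
    have s2 : φ a ∈ M2 := by rw [m2]; exact hle s1
    exact hle s2
  have n1 : ¬ (M1 ≤ M) := by
    intro hle
    apply hcon
    intro a ha
    apply hle
    rw [m1, h3]; exact ha
  have t1 : M ⊔ M1 = ⊤ := by
    by_contra hne
    exact n1 (le_trans le_sup_right (hmax _ inferInstance le_sup_left hne))
  have t2 : M ⊔ M2 = ⊤ := by
    by_contra hne
    exact n2 (le_trans le_sup_right (hmax _ inferInstance le_sup_left hne))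
  have hP : M ⊔ (M1 ⊓ M2) = ⊤ := by
    rw [eq_top_iff, ← hp, Subgroup.commutator_le]
    intro a _ b _
    set P := M ⊔ (M1 ⊓ M2) with hPdef
    have ha : a ∈ M ⊔ M1 := by rw [t1]; trivial
    have hb : b ∈ M ⊔ M2 := by rw [t2]; trivial
    obtain ⟨m, hm, a', ha', rfl⟩ := Subgroup.mem_sup_of_normal_left.1 ha
    obtain ⟨m', hm', b', hb', rfl⟩ := Subgroup.mem_sup_of_normal_left.1 hb
    rw [← QuotientGroup.eq_one_iff]
    have qm : ((m : A) : A ⧸ P) = 1 := (QuotientGroup.eq_one_iff _).2 (le_sup_left (a := M) hm)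
    have qm' : ((m' : A) : A ⧸ P) = 1 := (QuotientGroup.eq_one_iff _).2 (le_sup_left (a := M) hm')
    have qc : ((⁅a', b'⁆ : A) : A ⧸ P) = 1 := by
      rw [QuotientGroup.eq_one_iff]
      apply le_sup_right (a := M)
      refine ⟨?_, ?_⟩
      · have : ⁅a', b'⁆ = a' * (b' * a'⁻¹ * b'⁻¹) := by rw [commutatorElement_def]; group
        rw [this]
        exact M1.mul_mem ha' (hn1.conj_mem _ (M1.inv_mem ha') _)
      · rw [commutatorElement_def]
        exact M2.mul_mem (hn2.conj_mem _ hb' _) (M2.inv_mem hb')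
    have : ((⁅m * a', m' * b'⁆ : A) : A ⧸ P) = ((⁅a', b'⁆ : A) : A ⧸ P) := by
      simp only [commutatorElement_def, QuotientGroup.mk_mul, QuotientGroup.mk_inv, qm, qm',
        one_mul]
    rw [this, qc]
  have h4 : ∀ s : A, s ^ 4 ∈ M := by
    intro s
    have hs : s ∈ M ⊔ (M1 ⊓ M2) := by rw [hP]; trivial
    obtain ⟨m, hm, n, hn, rfl⟩ := Subgroup.mem_sup_of_normal_left.1 hs
    have hφ1 : φ n ∈ M := hn.2
    have hφ2 : φ (φ n) ∈ M := hn.1
    rw [← QuotientGroup.eq_one_iff]
    have q1 : ((m : A) : A ⧸ M) = 1 := (QuotientGroup.eq_one_iff _).2 hm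
    have q2 : ((φ n : A) : A ⧸ M) = 1 := (QuotientGroup.eq_one_iff _).2 hφ1
    have q3 : ((φ (φ n) : A) : A ⧸ M) = 1 := (QuotientGroup.eq_one_iff _).2 hφ2
    have := congrArg (fun a : A => (a : A ⧸ M)) (hw n)
    simp only [QuotientGroup.mk_pow, QuotientGroup.mk_mul, q2, q3, one_mul,
      QuotientGroup.mk_one] at this
    rw [QuotientGroup.mk_pow, QuotientGroup.mk_mul, q1, one_mul, this]
  apply hM
  rw [eq_top_iff, ← hgen, Subgroup.closure_le]
  intro s hs
  have hs' : s ^ 3 = 1 := hs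
  have : s = s ^ 4 * (s ^ 3)⁻¹ := by group
  rw [this, hs', inv_one, mul_one]
  exact h4 s

lemma closure_cubes {G : Type u} [Group G] {x y z : G} (h : Setting G x y z)
    (N : Subgroup G) (hN : N = Subgroup.normalClosure {y * z}) :
    Subgroup.closure {s : N | s ^ 3 = 1} = ⊤ := by
  have hle : N ≤ (Subgroup.closure {s : N | s ^ 3 = 1}).map N.subtype := by
    conv_lhs => rw [hN]; unfold Subgroup.normalClosure
    rw [Subgroup.closure_le]
    intro w hw
    have hwN : w ∈ N := by rw [hN]; exact Subgroup.conjugatesOfSet_subset_normalClosure hw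
    rw [Group.mem_conjugatesOfSet_iff] at hw
    obtain ⟨a, ha, hw⟩ := hw
    rw [Set.mem_singleton_iff] at ha
    subst ha
    obtain ⟨c, hc⟩ := isConj_iff.1 hw
    refine ⟨⟨w, hwN⟩, Subgroup.subset_closure ?_, rfl⟩
    apply Subtype.ext
    show w ^ 3 = 1
    rw [← hc, conj_pow, h.hyz]; simp
  rw [eq_top_iff]
  rintro ⟨v, hv⟩ _
  obtain ⟨w, hw, hwv⟩ := hle hv
  have : w = ⟨v, hv⟩ := Subtype.ext hwv
  rw [← this]
  exact hw

lemma perfect' {G : Type u} [Group G] {x y z : G} (h : Setting G x y z)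
    (N : Subgroup G) (hN : N = Subgroup.normalClosure {y * z}) :
    ⁅(⊤ : Subgroup N), (⊤ : Subgroup N)⁆ = ⊤ := by
  apply Subgroup.map_injective N.subtype_injective
  rw [Subgroup.map_commutator, ← MonoidHom.range_eq_map, Subgroup.range_subtype, hN]
  exact perfect h

/-- A maximal normal subgroup of the normal closure of `y z` is normal in the whole group. -/
lemma normal_of_maximal {G : Type u} [Group G] {x y z : G} (h : Setting G x y z)
    (N : Subgroup G) [N.Normal] (hN : N = Subgroup.normalClosure {y * z})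
    (M : Subgroup N) [hMn : M.Normal]
    (hM : M ≠ ⊤) (hmax : ∀ P : Subgroup N, P.Normal → M ≤ P →
      P ≠ ⊤ → P ≤ M) : (M.map N.subtype).Normal := by
  have key : ∀ t : G, t ^ 3 = 1 → ∀ a ∈ M.map N.subtype, t * a * t⁻¹ ∈ M.map N.subtype := by
    intro t ht
    rintro _ ⟨a, ha, rfl⟩
    refine ⟨MulAut.conjNormal t a, ?_, MulAut.conjNormal_apply _ _⟩
    apply fixes (MulAut.conjNormal t : MulAut N) ?_ ?_ (perfect' h N hN) (closure_cubes h N hN) M hM hmax a ha
    · intro a
      apply Subtype.ext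
      simp only [MulAut.conjNormal_apply]
      have : t * (t * (t * (a : G) * t⁻¹) * t⁻¹) * t⁻¹ = t ^ 3 * a * (t ^ 3)⁻¹ := by
        simp only [pow_succ, pow_zero, one_mul]; group
      rw [this, ht]; simp
    · intro n
      apply Subtype.ext
      simp only [Subgroup.coe_pow, Subgroup.coe_mul, MulAut.conjNormal_apply, Subgroup.coe_one]
      have : t * (n : G) * t⁻¹ * (t * (t * (n : G) * t⁻¹) * t⁻¹) * n
          = (t * n) ^ 3 := by
        have h1 : (t * (n : G)) ^ 3 = t * (n : G) * t⁻¹ * (t * (t * (n : G) * t⁻¹) * t⁻¹) *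
            (t ^ 3 * n) := by
          simp only [pow_succ, pow_zero, one_mul]; group
        rw [h1, ht, one_mul]
      rw [this, ← pow_mul]
      exact h.exp _
  have hnorm : ∀ t : G, t ^ 3 = 1 → t ∈ Subgroup.normalizer ((M.map N.subtype : Subgroup G)) := by
    intro t ht
    rw [Subgroup.mem_normalizer_iff]
    intro a
    refine ⟨key t ht a, fun ha => ?_⟩
    have := key t ht _ (key t ht _ ha)
    have h2 : t * (t * (t * a * t⁻¹) * t⁻¹) * t⁻¹ = t ^ 3 * a * (t ^ 3)⁻¹ := by
      simp only [pow_succ, pow_zero, one_mul]; group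
    rw [h2, ht] at this
    simpa using this
  have hNle : N ≤ Subgroup.normalizer ((M.map N.subtype : Subgroup G)) := by
    intro g hg
    have hc : ∀ g ∈ N, ∀ a ∈ M.map N.subtype, g * a * g⁻¹ ∈ M.map N.subtype := by
      rintro g hg _ ⟨a, ha, rfl⟩
      exact ⟨⟨g, hg⟩ * a * ⟨g, hg⟩⁻¹, hMn.conj_mem _ ha _, rfl⟩
    rw [Subgroup.mem_normalizer_iff]
    intro a
    refine ⟨hc g hg a, fun ha => ?_⟩
    have := hc g⁻¹ (inv_mem hg) _ ha
    have h2 : g⁻¹ * (g * a * g⁻¹) * g⁻¹⁻¹ = a := by group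
    rwa [h2] at this
  rw [← Subgroup.normalizer_eq_top_iff, eq_top_iff, ← h.gen, Subgroup.closure_le]
  have hx := hnorm x h.hx
  have hy : y ∈ Subgroup.normalizer ((M.map N.subtype : Subgroup G)) := by
    have h1 := hnorm (x * y) h.hxy
    have : y = x⁻¹ * (x * y) := by group
    rw [this]
    exact mul_mem (inv_mem hx) h1
  have hz : z ∈ Subgroup.normalizer ((M.map N.subtype : Subgroup G)) := by
    have h1 : y * z ∈ N := by rw [hN]; exact Subgroup.subset_normalClosure (Set.mem_singleton _)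
    have : z = y⁻¹ * (y * z) := by group
    rw [this]
    exact mul_mem (inv_mem hy) (hNle h1)
  rintro w (rfl | rfl | hw)
  · exact hx
  · exact hy
  · rw [Set.mem_singleton_iff] at hw
    rw [hw]; exact hz

/-- `G` is almost simple: `S` is a non-abelian simple normal subgroup with trivial
centraliser. -/
structure AlmostSimple (G : Type u) [Group G] (S : Subgroup G) : Prop where
  normal : S.Normal
  simple : IsSimpleGroup S
  nonabelian : ∃ a ∈ S, ∃ b ∈ S, a * b ≠ b * a
  centralizer : Subgroup.centralizer (S : Set G) = ⊥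

lemma almost_of_monolith {G : Type u} [Group G] {x y z : G} (h : Setting G x y z)
    (h1 : y * z ≠ 1) (hmono : ∀ K : Subgroup G, K.Normal → K ≠ ⊥ → y * z ∈ K) :
    AlmostSimple G (Subgroup.normalClosure {y * z}) := by
  set N := Subgroup.normalClosure {y * z} with hN
  have hmem : y * z ∈ N := Subgroup.subset_normalClosure (Set.mem_singleton _)
  have hnab : ∃ a ∈ N, ∃ b ∈ N, a * b ≠ b * a := by
    by_contra hcon
    push Not at hcon
    exact h1 (comm_case h hcon)
  have hle : ∀ K : Subgroup G, K.Normal → K ≠ ⊥ → N ≤ K := by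
    intro K hK hK'
    haveI := hK
    exact Subgroup.normalClosure_le_normal (Set.singleton_subset_iff.2 (hmono K hK hK'))
  refine ⟨inferInstance, ?_, hnab, ?_⟩
  · haveI : Group.FG G := ⟨⟨(Set.toFinite ({x, y, z} : Set G)).toFinset, by
      rw [Set.Finite.coe_toFinset]; exact h.gen⟩⟩
    haveI : N.FiniteIndex := ⟨by
      rcases index_cases h with h | h | h <;> rw [← hN] at h <;> rw [h] <;> norm_num⟩
    haveI : Group.FG N := inferInstance
    haveI : Nontrivial N := ⟨⟨⟨y * z, hmem⟩, 1, fun hh => h1 (congrArg Subtype.val hh)⟩⟩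
    refine ⟨fun L hL => ?_⟩
    by_contra hcon
    push Not at hcon
    obtain ⟨M, hLM, hMn, hM, hmax⟩ := exists_maximal L hL hcon.2
    haveI := hMn
    have hMG := normal_of_maximal h N hN M hM hmax
    by_cases hbot : M.map N.subtype = ⊥
    · have : M = ⊥ := (Subgroup.map_eq_bot_iff_of_injective _ N.subtype_injective).1 hbot
      rw [this] at hLM
      exact hcon.1 (le_bot_iff.1 hLM)
    · apply hM
      have := hle _ hMG hbot
      rw [eq_top_iff]
      rintro ⟨v, hv⟩ _
      obtain ⟨w, hw, hwv⟩ := this hv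
      have : w = ⟨v, hv⟩ := Subtype.ext hwv
      rw [← this]
      exact hw
  · by_contra hne
    have := hle _ inferInstance hne
    obtain ⟨a, ha, b, hb, hab⟩ := hnab
    exact hab ((Subgroup.mem_centralizer_iff.1 (this hb)) a ha)

/-- There is no non-abelian simple group of order at most `12` and exponent dividing `12`. -/
lemma no_small_simple {S : Type u} [Group S] [hS : IsSimpleGroup S] (hexp : ∀ g : S, g ^ 12 = 1)
    (hna : ∃ a b : S, a * b ≠ b * a) (hfin : Finite S) : 12 < Nat.card S := by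
  by_contra hle
  push Not at hle
  have hpos : 0 < Nat.card S := Nat.card_pos
  obtain ⟨a0, b0, hab⟩ := hna
  have hcau : ∀ p : ℕ, p.Prime → p ∣ Nat.card S → p ∣ 12 := by
    intro p hp hd
    haveI := Fact.mk hp
    obtain ⟨g, hg⟩ := exists_prime_orderOf_dvd_card' p hd
    rw [← hg]
    exact orderOf_dvd_of_pow_eq_one (hexp g)
  have hpg : ∀ p k : ℕ, p.Prime → Nat.card S = p ^ k → False := by
    intro p k hp hc
    haveI := Fact.mk hp
    have h1 : IsPGroup p S := IsPGroup.of_card hc
    haveI := h1.center_nontrivial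
    rcases hS.eq_bot_or_eq_top_of_normal (Subgroup.center S) inferInstance with h2 | h2
    · exact (Subgroup.nontrivial_iff_ne_bot _).1 this h2
    · apply hab
      have : b0 ∈ Subgroup.center S := by rw [h2]; trivial
      exact Subgroup.mem_center_iff.1 this a0
  have hidx : ∀ P : Subgroup S, P ≠ ⊤ → P.index ≤ 3 → Nat.card S ≤ P.index.factorial := by
    intro P hP h3
    have hcore : P.normalCore = ⊥ := by
      rcases hS.eq_bot_or_eq_top_of_normal P.normalCore inferInstance with h | h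
      · exact h
      · exfalso
        apply hP
        rw [eq_top_iff, ← h]
        exact Subgroup.normalCore_le P
    rw [Subgroup.normalCore_eq_ker, MonoidHom.ker_eq_bot_iff] at hcore
    have h1 := Nat.card_le_card_of_injective _ hcore
    rw [Nat.card_perm] at h1
    exact h1
  have hsub : ∀ p k : ℕ, p.Prime → p ^ k ∣ Nat.card S → ∃ P : Subgroup S, Nat.card P = p ^ k := by
    intro p k hp hd
    haveI := Fact.mk hp
    exact Sylow.exists_subgroup_card_pow_prime p hd
  have hn : Nat.card S = 1 ∨ Nat.card S = 2 ∨ Nat.card S = 3 ∨ Nat.card S = 4 ∨ Nat.card S = 5 ∨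
      Nat.card S = 6 ∨ Nat.card S = 7 ∨ Nat.card S = 8 ∨ Nat.card S = 9 ∨ Nat.card S = 10 ∨
      Nat.card S = 11 ∨ Nat.card S = 12 := by omega
  rcases hn with h | h | h | h | h | h | h | h | h | h | h | h
  · exact hpg 2 0 Nat.prime_two (by rw [h]; rfl)
  · exact hpg 2 1 Nat.prime_two (by rw [h]; rfl)
  · exact hpg 3 1 Nat.prime_three (by rw [h]; rfl)
  · exact hpg 2 2 Nat.prime_two (by rw [h]; rfl)
  · have := hcau 5 (by norm_num) (by rw [h]); omega
  · obtain ⟨P, hP⟩ := hsub 3 1 Nat.prime_three (by rw [h]; norm_num)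
    have h1 := P.card_mul_index
    rw [hP, h] at h1
    have h2 : P.index = 2 := by omega
    have h3 : P ≠ ⊤ := by
      rintro rfl
      rw [Subgroup.index_top] at h2
      omega
    have := hidx P h3 (by omega)
    rw [h2, h] at this
    norm_num [Nat.factorial] at this
  · have := hcau 7 (by norm_num) (by rw [h]); omega
  · exact hpg 2 3 Nat.prime_two (by rw [h]; rfl)
  · exact hpg 3 2 Nat.prime_three (by rw [h]; rfl)
  · have := hcau 5 (by norm_num) (by rw [h]; norm_num); omega
  · have := hcau 11 (by norm_num) (by rw [h]); omega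
  · obtain ⟨P, hP⟩ := hsub 2 2 Nat.prime_two (by rw [h]; norm_num)
    have h1 := P.card_mul_index
    rw [hP, h] at h1
    have h2 : P.index = 3 := by omega
    have h3 : P ≠ ⊤ := by
      rintro rfl
      rw [Subgroup.index_top] at h2
      omega
    have := hidx P h3 (by omega)
    rw [h2, h] at this
    norm_num [Nat.factorial] at this

/-- The monolithic quotient of a group of the setting with `y z ≠ 1`. -/
lemma exists_monolith {G : Type u} [Group G] {y z : G} (h1 : y * z ≠ 1) :
    ∃ (K : Subgroup G) (_ : K.Normal), (y : G ⧸ K) * (z : G ⧸ K) ≠ 1 ∧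
      ∀ L : Subgroup (G ⧸ K), L.Normal → L ≠ ⊥ → (y : G ⧸ K) * (z : G ⧸ K) ∈ L := by
  obtain ⟨K, -, hK⟩ := zorn_le_nonempty₀ {L : Subgroup G | L.Normal ∧ y * z ∉ L} (by
    intro c hc hch P hP
    have hdir : DirectedOn (· ≤ ·) c := hch.directedOn
    refine ⟨sSup c, ⟨⟨?_⟩, ?_⟩, fun z hz => le_sSup hz⟩
    · intro n hn g
      rw [Subgroup.mem_sSup_of_directedOn ⟨P, hP⟩ hdir] at hn ⊢
      obtain ⟨K, hK, hn⟩ := hn
      exact ⟨K, hK, (hc hK).1.conj_mem _ hn _⟩
    · intro hm
      rw [Subgroup.mem_sSup_of_directedOn ⟨P, hP⟩ hdir] at hm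
      obtain ⟨K, hK, hn⟩ := hm
      exact (hc hK).2 hn) ⊥ ⟨inferInstance, by rwa [Subgroup.mem_bot]⟩
  have hKn := hK.1.1
  refine ⟨K, hKn, ?_, ?_⟩
  · rw [← QuotientGroup.mk_mul, Ne, QuotientGroup.eq_one_iff]
    exact hK.1.2
  · intro L hL hLb
    by_contra hm
    apply hLb
    have h2 : L.comap (QuotientGroup.mk' K) ≤ K := by
      apply hK.2
      · exact ⟨hL.comap _, hm⟩
      · intro k hk
        rw [Subgroup.mem_comap, QuotientGroup.mk'_apply, (QuotientGroup.eq_one_iff k).2 hk]
        exact one_mem _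
    rw [eq_bot_iff]
    intro l hl
    obtain ⟨g, rfl⟩ := QuotientGroup.mk_surjective l
    rw [Subgroup.mem_bot, QuotientGroup.eq_one_iff]
    exact h2 hl

theorem main_quotient {G : Type u} [Group G] {x y z : G} (h : Setting G x y z)
    (h1 : ¬ (Finite G ∧ Nat.card G ≤ 12)) :
    ∃ (K : Subgroup G) (_ : K.Normal), Setting (G ⧸ K) x y z ∧
      AlmostSimple (G ⧸ K) (Subgroup.normalClosure {(y : G ⧸ K) * (z : G ⧸ K)}) ∧
      ((Subgroup.normalClosure {(y : G ⧸ K) * (z : G ⧸ K)}).index = 1 ∨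
        (Subgroup.normalClosure {(y : G ⧸ K) * (z : G ⧸ K)}).index = 3 ∨
        (Subgroup.normalClosure {(y : G ⧸ K) * (z : G ⧸ K)}).index = 12) := by
  have hyz : y * z ≠ 1 := by
    intro he
    apply h1
    have hc := card_of_eq h he
    have hpos : Nat.card G ≠ 0 := by rcases hc with h | h | h <;> rw [h] <;> norm_num
    refine ⟨Nat.finite_of_card_ne_zero hpos, ?_⟩
    rcases hc with h | h | h <;> rw [h] <;> norm_num
  obtain ⟨K, hK, h2, h3⟩ := exists_monolith hyz
  have hs : Setting (G ⧸ K) x y z := h.map (QuotientGroup.mk' K) (QuotientGroup.mk'_surjective K)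
  exact ⟨K, hK, hs, almost_of_monolith hs h2 h3, index_cases hs⟩

theorem main_converse {G : Type u} [Group G] {S : Subgroup G} (hexp : ∀ g : G, g ^ 12 = 1)
    (hS : AlmostSimple G S) : ¬ (Finite G ∧ Nat.card G ≤ 12) := by
  rintro ⟨hf, hc⟩
  haveI := hS.simple
  haveI : Finite S := inferInstance
  have h1 : 12 < Nat.card S := by
    apply no_small_simple (fun g => Subtype.ext (hexp g)) ?_ inferInstance
    obtain ⟨a, ha, b, hb, hab⟩ := hS.nonabelian
    exact ⟨⟨a, ha⟩, ⟨b, hb⟩, fun hh => hab (congrArg Subtype.val hh)⟩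
  have h2 : Nat.card S ≤ Nat.card G := Nat.card_le_card_of_injective _ S.subtype_injective
  omega


/-- Q1 of the problem: every group in the setting has at most `12` elements. -/
def Q1 : Prop :=
  ∀ (G : Type u) [Group G] (x y z : G), Setting G x y z → Finite G ∧ Nat.card G ≤ 12

/-- `M` is a maximal normal subgroup of `N`. -/
structure MaximalNormal {N : Type u} [Group N] (M : Subgroup N) : Prop where
  normal : M.Normal
  ne_top : M ≠ ⊤
  maximal : ∀ P : Subgroup N, P.Normal → M ≤ P → P ≠ ⊤ → P ≤ M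

theorem result :
    (Q1.{u} ↔ ¬ ∃ (G : Type u) (_ : Group G) (x y z : G) (S : Subgroup G), Setting G x y z ∧
      AlmostSimple G S ∧ (S.index = 1 ∨ S.index = 3 ∨ S.index = 12)) ∧
    ∀ (G : Type u) [Group G] (x y z : G), Setting G x y z →
      ⁅Subgroup.normalClosure {y * z}, Subgroup.normalClosure {y * z}⁆ =
        Subgroup.normalClosure {y * z} ∧
      (∀ M : Subgroup (Subgroup.normalClosure {y * z}), MaximalNormal M →
        (M.map (Subgroup.normalClosure {y * z}).subtype).Normal) ∧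
      (¬ (Finite G ∧ Nat.card G ≤ 12) → ∃ (K : Subgroup G) (_ : K.Normal),
        Setting (G ⧸ K) (x : G ⧸ K) (y : G ⧸ K) (z : G ⧸ K) ∧
        ∃ S : Subgroup (G ⧸ K), S = Subgroup.normalClosure {(y : G ⧸ K) * (z : G ⧸ K)} ∧
          AlmostSimple (G ⧸ K) S ∧ (S.index = 1 ∨ S.index = 3 ∨ S.index = 12)) := by
  refine ⟨⟨?_, ?_⟩, ?_⟩
  · rintro hQ ⟨G, _, x, y, z, S, hs, hS, -⟩
    exact main_converse hs.exp hS (hQ G x y z hs)
  · intro hno G _ x y z hs
    by_contra hc
    obtain ⟨K, hK, h1, h2, h3⟩ := main_quotient hs hc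
    exact hno ⟨G ⧸ K, inferInstance, x, y, z, _, h1, h2, h3⟩
  · intro G _ x y z hs
    refine ⟨perfect hs, ?_, ?_⟩
    · intro M hM
      haveI := hM.normal
      exact normal_of_maximal hs _ rfl M hM.ne_top hM.maximal
    · intro hc
      obtain ⟨K, hK, h1, h2, h3⟩ := main_quotient hs hc
      exact ⟨K, hK, h1, _, rfl, h2, h3⟩

end Pool.Agent.Results.MP_5d202e_al.AlmostSimpleReduction
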