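import Pool.Agent.TCG.Expl

/-!
# Groups of exponent dividing 12 generated by `x, y, z`: four explicit elements

Let `G` be in the setting of the problem, `b = x⁻¹ y x` and `c = x y x⁻¹`. If neither `b z` nor `c z`
has order `6` or `12`, and neither of two further explicit elements has order `12`, then `G` is
finite with at most `12` elements. The four elements are products of two conjugates of `y`.

* The subgroup `⟨x, y⟩` is a quotient of the alternating group of degree four; `V = {1, y, b, c}` is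
  normalised by `x` (`Pool.Agent.TCG.Base`).
* The products `b z` and `c z` have order dividing `3` or `4`. Coset enumerations, checked by
  the kernel from certificates (`Pool.Agent.TCG.C34`, `Pool.Agent.TCG.C44`), show that `y = z` in
  each of the cases `(3, 3)`, `(3, 4)`, `(4, 3)`, `(4, 4)` (`Pool.Agent.TCG.Expl`,
  `Pool.Agent.TCG.Small`).
-/

set_option autoImplicit false

namespace Pool.Agent.Results.MP_5d202e_al.SmallProducts

open TCG

universe u

/-- The setting of the problem. -/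
structure Setting (G : Type u) [Group G] (x y z : G) : Prop where
  gen : Subgroup.closure ({x, y, z} : Set G) = ⊤
  hx : x ^ 3 = 1
  hy : y ^ 2 = 1
  hz : z ^ 2 = 1
  hxy : (x * y) ^ 3 = 1
  hyz : (y * z) ^ 3 = 1
  exp : ∀ g : G, g ^ 12 = 1

/-- An element of exponent `12` has order `12`, or order dividing `4` or `6`; and in the latter case
order `6`, or order dividing `3` or `4`. -/
lemma pow_cases {G : Type u} [Group G] {a : G} (h : a ^ 12 = 1) (h12 : orderOf a ≠ 12) :
    (a ^ 4 = 1 ∨ a ^ 6 = 1) ∧ (orderOf a ≠ 6 → a ^ 3 = 1 ∨ a ^ 4 = 1) := by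
  have hd : orderOf a ∣ 12 := orderOf_dvd_of_pow_eq_one h
  have hm : orderOf a ∈ Nat.divisors 12 := Nat.mem_divisors.mpr ⟨hd, by norm_num⟩
  have hs : Nat.divisors 12 = {1, 2, 3, 4, 6, 12} := by decide
  rw [hs] at hm
  simp only [Finset.mem_insert, Finset.mem_singleton] at hm
  rcases hm with e | e | e | e | e | e
  · exact ⟨Or.inl (orderOf_dvd_iff_pow_eq_one.mp (by rw [e]; norm_num)),
      fun _ => Or.inl (orderOf_dvd_iff_pow_eq_one.mp (by rw [e]; norm_num))⟩
  · exact ⟨Or.inl (orderOf_dvd_iff_pow_eq_one.mp (by rw [e]; norm_num)),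
      fun _ => Or.inr (orderOf_dvd_iff_pow_eq_one.mp (by rw [e]; norm_num))⟩
  · exact ⟨Or.inr (orderOf_dvd_iff_pow_eq_one.mp (by rw [e]; norm_num)),
      fun _ => Or.inl (orderOf_dvd_iff_pow_eq_one.mp (by rw [e]))⟩
  · exact ⟨Or.inl (orderOf_dvd_iff_pow_eq_one.mp (by rw [e])),
      fun _ => Or.inr (orderOf_dvd_iff_pow_eq_one.mp (by rw [e]))⟩
  · exact ⟨Or.inr (orderOf_dvd_iff_pow_eq_one.mp (by rw [e])), fun h6 => absurd e h6⟩
  · exact absurd e h12

/-- The local statement: `y = z`. -/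
theorem eq_of_small {G : Type u} [Group G] {x y z : G} (e12 : ∀ a : G, a ^ 12 = 1)
    (hx : x ^ 3 = 1) (hy : y ^ 2 = 1) (hz : z ^ 2 = 1) (hxy : (x * y) ^ 3 = 1)
    (hyz : (y * z) ^ 3 = 1)
    (hb : orderOf (x⁻¹ * y * x * z) ≠ 6 ∧ orderOf (x⁻¹ * y * x * z) ≠ 12)
    (hc : orderOf (x * y * x⁻¹ * z) ≠ 6 ∧ orderOf (x * y * x⁻¹ * z) ≠ 12)
    (hwb : orderOf (wit x (x⁻¹ * y * x) z) ≠ 12)
    (hwc : orderOf (wit x⁻¹ (x * y * x⁻¹) z) ≠ 12) : y = z := by
  have h := Fr.of hx hy hxy
  have hz' : z * z = 1 := by rw [← pow_two, hz]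
  rcases (pow_cases (e12 _) hb.2).2 hb.1 with hb' | hb' <;>
    rcases (pow_cases (e12 _) hc.2).2 hc.1 with hc' | hc'
  · exact eq33 h hz' hyz hb' hc'
  · exact eq34w h.inv e12 hz' hyz hc' hb' (pow_cases (e12 _) hwc).1
  · exact eq34w h e12 hz' hyz hb' hc' (pow_cases (e12 _) hwb).1
  · exact eq44 h hz' hyz hb' hc'

/-- Let `G` be in the setting, `b = x⁻¹ y x` and `c = x y x⁻¹`. If the orders of `b z` and `c z` are
different from `6` and `12`, and the orders of `wit x b z = g (p z p⁻¹)`, `g = z b z`,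
`p = (x⁻¹ g x g) ^ 4`, and of `wit x⁻¹ c z = g (p z p⁻¹)`, `g = z c z`, `p = (x g x⁻¹ g) ^ 4`, are
different from `12`, then `y = z` and `G` has at most `12` elements. -/
theorem result (G : Type u) [Group G] (x y z : G) (h : Setting G x y z)
    (hb : orderOf (x⁻¹ * y * x * z) ≠ 6 ∧ orderOf (x⁻¹ * y * x * z) ≠ 12)
    (hc : orderOf (x * y * x⁻¹ * z) ≠ 6 ∧ orderOf (x * y * x⁻¹ * z) ≠ 12)
    (hwb : orderOf (wit x (x⁻¹ * y * x) z) ≠ 12)
    (hwc : orderOf (wit x⁻¹ (x * y * x⁻¹) z) ≠ 12) :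
    y = z ∧ Finite G ∧ Nat.card G ≤ 12 := by
  have hyz : y = z := eq_of_small h.exp h.hx h.hy h.hz h.hxy h.hyz hb hc hwb hwc
  refine ⟨hyz, ?_⟩
  have hgen : Subgroup.closure ({x, y} : Set G) = ⊤ := by
    have h1 := h.gen
    rw [← hyz] at h1
    rw [← h1]
    congr 1
    ext a
    simp
  exact card_le (Fr.of h.hx h.hy h.hxy) hgen

/-- The four elements are products of two conjugates of `y`, so it is enough that no such product
has order `6` or `12`. -/
theorem of_products (G : Type u) [Group G] (x y z : G) (h : Setting G x y z)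
    (hno : ∀ u v : G, IsConj y u → IsConj y v → orderOf (u * v) ≠ 6 ∧ orderOf (u * v) ≠ 12) :
    y = z ∧ Finite G ∧ Nat.card G ≤ 12 := by
  have hz' : z * z = 1 := by rw [← pow_two, h.hz]
  have hy' : y * y = 1 := by rw [← pow_two, h.hy]
  have zi : z⁻¹ = z := (eq_inv_of_mul_eq_one_left hz').symm
  have cz : IsConj y z := isConj_of_three hy' hz' h.hyz
  have cb : IsConj y (x⁻¹ * y * x) := by
    rw [isConj_iff]; exact ⟨x⁻¹, by rw [inv_inv]⟩
  have cc : IsConj y (x * y * x⁻¹) := by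
    rw [isConj_iff]; exact ⟨x, rfl⟩
  have cg : ∀ u : G, IsConj y u → IsConj y (z * u * z) := by
    intro u hu
    refine hu.trans ?_
    rw [isConj_iff]
    exact ⟨z, by rw [zi]⟩
  have cp : ∀ p : G, IsConj y (p * z * p⁻¹) := by
    intro p
    refine cz.trans ?_
    rw [isConj_iff]
    exact ⟨p, rfl⟩
  exact result G x y z h (hno _ _ cb cz) (hno _ _ cc cz) (hno _ _ (cg _ cb) (cp _)).2
    (hno _ _ (cg _ cc) (cp _)).2

end Pool.Agent.Results.MP_5d202e_al.SmallProducts
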